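import Pool.Agent.X195.AC4

/-!
# MP_3e56e8_al: the alternating chain-count congruence for arbitrary index sets

For a finite group `G` with `|G| = p^t n`, `p ∤ n`, `s ≤ t` and `J ⊆ [0, s]` nonempty,
`S_J(G) = ∑_{∅ ≠ I ⊆ J} (-1)^{|I|+1} N(s - I) ≡ 1` modulo `p^{|J|}`.
-/

namespace Pool.Agent.Results.MP_3e56e8_al.ChainCongruence

open Finset

/-- `N(s - I)`: the number of families `(U_c)_{c ∈ I}` of subgroups of `G` with `|U_c| = p^{s-c}`
and `U_c ≤ U_{c'}` whenever `c' ≤ c`. -/
noncomputable def chainCount (G : Type*) [Group G] (p s : ℕ) (I : Finset ℕ) : ℕ :=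
  Nat.card {U : I → Subgroup G // (∀ c : I, Nat.card (U c) = p ^ (s - (c : ℕ))) ∧
    ∀ c c' : I, (c' : ℕ) ≤ (c : ℕ) → U c ≤ U c'}

/-- `S_J(G)`: the alternating sum of the numbers `N(s - I)` over the nonempty `I ⊆ J`. -/
noncomputable def altSum (G : Type*) [Group G] (p s : ℕ) (J : Finset ℕ) : ℤ :=
  ∑ I ∈ J.powerset with I.Nonempty, (-1) ^ (I.card + 1) * (chainCount G p s I : ℤ)

open Pool.Agent.X195.AC

open scoped Classical in
theorem bridge (G : Type*) [Group G] [Finite G] (p : ℕ) (hp : p.Prime) (s : ℕ) (J : Finset ℕ)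
    (hJ : ∀ c ∈ J, c ≤ s) :
    ∑ I ∈ J.powerset, (-1 : ℤ) ^ I.card * (chainCount G p s I : ℤ) =
      Fc (PR p (J.image (s - ·)) G) ⊤ := by
  have hpow : ∀ c ∈ J, ∀ c' ∈ J, p ^ (s - c) = p ^ (s - c') → c = c' := by
    intro c hc c' hc' h
    have h1 := Nat.pow_right_injective hp.two_le h
    have h2 := hJ c hc
    have h3 := hJ c' hc'
    omega
  set τ : Finset (Subgroup G) → Finset ℕ :=
    fun c => J.filter (fun j => ∃ U ∈ c, Nat.card U = p ^ (s - j)) with hτ
  unfold Fc
  rw [← sum_fiberwise_of_maps_to (t := J.powerset) (g := τ)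
    (fun c _ => mem_powerset.2 (filter_subset _ _))]
  refine sum_congr rfl fun I hI => ?_
  rw [mem_powerset] at hI
  set T := {U : I → Subgroup G // (∀ c : I, Nat.card (U c) = p ^ (s - (c : ℕ))) ∧
    ∀ c c' : I, (c' : ℕ) ≤ (c : ℕ) → U c ≤ U c'} with hT
  have : Fintype T := Fintype.ofFinite T
  set Φ : T → Finset (Subgroup G) := fun U => univ.image U.1 with hΦ
  have hUinj : ∀ U : T, Function.Injective U.1 := by
    intro U c c' h
    have h1 := U.2.1 c
    have h2 := U.2.1 c'
    rw [h, h2] at h1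
    exact Subtype.ext (hpow c (hI c.2) c' (hI c'.2) h1.symm)
  have hcard : ∀ U : T, (Φ U).card = I.card := by
    intro U
    rw [hΦ]
    simp only
    rw [card_image_of_injective _ (hUinj U), card_univ, Fintype.card_coe]
  have hΦinj : Function.Injective Φ := by
    intro U V h
    apply Subtype.ext
    funext c
    have h1 : U.1 c ∈ Φ V := h ▸ mem_image_of_mem _ (mem_univ c)
    obtain ⟨c', _, hc'⟩ := mem_image.1 h1
    have h2 := V.2.1 c'
    rw [hc', U.2.1 c] at h2
    have h3 : c = c' := Subtype.ext (hpow c (hI c.2) c' (hI c'.2) h2)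
    rw [← hc', h3]
  have hfib : (chains (PR p (J.image (s - ·)) G) ⊤).filter (fun c => τ c = I) = univ.image Φ := by
    ext c
    rw [mem_filter, mem_chains, mem_image]
    constructor
    · rintro ⟨⟨h1, h2, _⟩, h3⟩
      have hex : ∀ j : I, ∃ U ∈ c, Nat.card U = p ^ (s - (j : ℕ)) := by
        intro j
        have : (j : ℕ) ∈ τ c := h3 ▸ j.2
        exact (mem_filter.1 this).2
      choose U hUc hUcard using hex
      refine ⟨⟨U, hUcard, ?_⟩, mem_univ _, ?_⟩
      · intro j j' hjj
        rcases h2.total (hUc j) (hUc j') with h | h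
        · exact h
        · have h4 : Nat.card (U j) ≤ Nat.card (U j') := by
            rw [hUcard, hUcard]
            exact Nat.pow_le_pow_right hp.pos (by omega)
          exact (Subgroup.eq_of_le_of_card_ge h h4).ge
      · ext V
        rw [hΦ]
        simp only [mem_image, mem_univ, true_and]
        constructor
        · rintro ⟨j, rfl⟩
          exact hUc j
        · intro hV
          obtain ⟨a, ha, hVa⟩ := mem_PR.1 (h1 hV)
          obtain ⟨j, hj, rfl⟩ := mem_image.1 ha
          have hjI : j ∈ I := by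
            rw [← h3]
            exact mem_filter.2 ⟨hj, V, hV, hVa⟩
          refine ⟨⟨j, hjI⟩, ?_⟩
          have h5 : Nat.card (U ⟨j, hjI⟩) = Nat.card V := by rw [hUcard, hVa]
          rcases h2.total (hUc ⟨j, hjI⟩) hV with h | h
          · exact Subgroup.eq_of_le_of_card_ge h h5.ge
          · exact (Subgroup.eq_of_le_of_card_ge h h5.le).symm
    · rintro ⟨U, _, rfl⟩
      refine ⟨⟨?_, ?_, fun _ _ => le_top⟩, ?_⟩
      · intro V hV
        obtain ⟨j, _, rfl⟩ := mem_image.1 hV
        exact mem_PR.2 ⟨s - (j : ℕ), mem_image_of_mem _ (hI j.2), U.2.1 j⟩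
      · intro V hV W hW _
        rw [mem_coe] at hV hW
        obtain ⟨j, _, rfl⟩ := mem_image.1 hV
        obtain ⟨j', _, rfl⟩ := mem_image.1 hW
        rcases le_total (j' : ℕ) (j : ℕ) with h | h
        · exact Or.inl (U.2.2 j j' h)
        · exact Or.inr (U.2.2 j' j h)
      · ext j
        rw [mem_filter]
        constructor
        · rintro ⟨hj, V, hV, hVj⟩
          obtain ⟨j', _, rfl⟩ := mem_image.1 hV
          rw [U.2.1 j'] at hVj
          rw [← hpow _ (hI j'.2) _ hj hVj]
          exact j'.2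
        · intro hj
          exact ⟨hI hj, U.1 ⟨j, hj⟩, mem_image_of_mem _ (mem_univ _), U.2.1 ⟨j, hj⟩⟩
  rw [hfib, sum_image (fun U _ V _ h => hΦinj h), sum_congr rfl (fun U _ => by rw [hcard U]),
    sum_const, card_univ, nsmul_eq_mul, chainCount, Nat.card_eq_fintype_card, mul_comm]

/-- For every finite group `G`, every prime `p`, `|G| = p^t n` with `p ∤ n`, every `s ≤ t` and
every nonempty `J ⊆ [0, s]`, the alternating chain count satisfies `S_J(G) ≡ 1 (mod p^{|J|})`. -/
theorem result (G : Type*) [Group G] [Finite G] (p : ℕ) (hp : p.Prime) (t n : ℕ)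
    (hG : Nat.card G = p ^ t * n) (_hn : ¬ p ∣ n) (s : ℕ) (hs : s ≤ t) (J : Finset ℕ)
    (hJ : ∀ c ∈ J, c ≤ s) (_hne : J.Nonempty) :
    altSum G p s J ≡ 1 [ZMOD (p : ℤ) ^ J.card] := by
  have : Fact p.Prime := ⟨hp⟩
  have h1 := Fc_dvd (p := p) (G := G) (J.image (s - ·)) t (Dvd.intro n hG.symm) (by
    intro a ha
    obtain ⟨c, hc, rfl⟩ := mem_image.1 ha
    omega)
  have h2 : (J.image (s - ·)).card = J.card := by
    apply card_image_of_injOn
    intro c hc c' hc' h
    have h3 := hJ c hc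
    have h4 := hJ c' hc'
    simp only at h
    omega
  rw [h2, ← bridge G p hp s J hJ] at h1
  have h3 : chainCount G p s ∅ = 1 := by
    unfold chainCount
    rw [Nat.card_eq_one_iff_unique]
    refine ⟨⟨fun a b => Subtype.ext (funext fun c => absurd c.2 (notMem_empty _))⟩,
      ⟨⟨fun c => absurd c.2 (notMem_empty _), fun c => absurd c.2 (notMem_empty _),
        fun c => absurd c.2 (notMem_empty _)⟩⟩⟩
  have h4 : altSum G p s J = 1 - ∑ I ∈ J.powerset, (-1 : ℤ) ^ I.card * (chainCount G p s I : ℤ) := by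
    unfold altSum
    rw [← sum_filter_add_sum_filter_not J.powerset (fun I => I.Nonempty)
      (fun I => (-1 : ℤ) ^ I.card * (chainCount G p s I : ℤ))]
    have h5 : J.powerset.filter (fun I => ¬ I.Nonempty) = {∅} := by
      ext I
      rw [mem_filter, mem_powerset, not_nonempty_iff_eq_empty, mem_singleton]
      exact ⟨fun h => h.2, fun h => ⟨h ▸ empty_subset J, h⟩⟩
    rw [h5, sum_singleton, h3]
    have h6 : ∑ I ∈ J.powerset with I.Nonempty, (-1 : ℤ) ^ (I.card + 1) * (chainCount G p s I : ℤ) =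
        - ∑ I ∈ J.powerset with I.Nonempty, (-1 : ℤ) ^ I.card * (chainCount G p s I : ℤ) := by
      rw [← sum_neg_distrib]
      refine sum_congr rfl fun I _ => ?_
      rw [pow_succ]
      ring
    rw [h6]
    simp
  rw [h4, Int.modEq_iff_dvd]
  have : (1 : ℤ) - (1 - ∑ I ∈ J.powerset, (-1 : ℤ) ^ I.card * (chainCount G p s I : ℤ)) =
      ∑ I ∈ J.powerset, (-1 : ℤ) ^ I.card * (chainCount G p s I : ℤ) := by ring
  rw [this]
  exact h1

end Pool.Agent.Results.MP_3e56e8_al.ChainCongruence
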